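import Pool.Agent.Helper23.MT.Goals

set_option autoImplicit false

open scoped Classical
open Pool.Agent.Helper23.MT

namespace Pool.Agent.Helper79.MT

theorem inv7 {G : ℕ} (h7 : Nat.Coprime G 7) : (7 : ZMod G) * (7 : ZMod G)⁻¹ = 1 := by
  have h := ZMod.coe_mul_inv_eq_one (n := G) 7 h7.symm
  simpa using h

theorem inv3 {G : ℕ} (h3 : Nat.Coprime G 3) : (3 : ZMod G) * (3 : ZMod G)⁻¹ = 1 := by
  have h := ZMod.coe_mul_inv_eq_one (n := G) 3 h3.symm
  simpa using h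

theorem cancel3 {G : ℕ} (h3 : Nat.Coprime G 3) {a b : ZMod G} (h : 3 * a = 3 * b) : a = b := by
  have h1 := inv3 h3
  calc a = (3 * (3 : ZMod G)⁻¹) * a := by rw [h1, one_mul]
    _ = (3 : ZMod G)⁻¹ * (3 * a) := by ring
    _ = (3 : ZMod G)⁻¹ * (3 * b) := by rw [h]
    _ = (3 * (3 : ZMod G)⁻¹) * b := by ring
    _ = b := by rw [h1, one_mul]

theorem cancel3pow {G : ℕ} (h3 : Nat.Coprime G 3) (n : ℕ) {a b : ZMod G}
    (h : 3 ^ n * a = 3 ^ n * b) : a = b := by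
  induction n with
  | zero => simpa using h
  | succ n ih =>
    apply ih
    apply cancel3 h3
    calc (3 : ZMod G) * (3 ^ n * a) = 3 ^ (n + 1) * a := by ring
      _ = 3 ^ (n + 1) * b := h
      _ = 3 * (3 ^ n * b) := by ring

theorem mv_eq_iff {G : ℕ} (h7 : Nat.Coprime G 7) {d e : ZMod G} {l : ℕ} :
    mv G d l = e ↔ 3 ^ (l + 1) * d + 2 = 7 * e := by
  have h1 := inv7 h7
  unfold mv
  constructor
  · intro h
    rw [← h, ← mul_assoc, h1, one_mul]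
  · intro h
    rw [h, ← mul_assoc, mul_comm (7 : ZMod G)⁻¹ 7, h1, one_mul]

theorem mv_inj {G : ℕ} (h3 : Nat.Coprime G 3) (h7 : Nat.Coprime G 7) (l : ℕ) {a b : ZMod G}
    (h : mv G a l = mv G b l) : a = b := by
  have h1 := (mv_eq_iff h7).1 h
  have h2 : 3 ^ (l + 1) * b + 2 = 7 * mv G b l := (mv_eq_iff h7).1 rfl
  exact cancel3pow h3 (l + 1) (add_right_cancel (h1.trans h2.symm))

def Reach (G : ℕ) (c : ZMod G) : Set (ZMod G) := {d | ∃ ls : List ℕ, ls.foldl (mv G) c = d}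

theorem reach_self {G : ℕ} (c : ZMod G) : c ∈ Reach G c := ⟨[], rfl⟩

theorem reach_mv {G : ℕ} {c d : ZMod G} (h : d ∈ Reach G c) (l : ℕ) : mv G d l ∈ Reach G c := by
  obtain ⟨ls, hls⟩ := h
  refine ⟨ls ++ [l], ?_⟩
  rw [List.foldl_append, hls]
  rfl

theorem reach_trans {G : ℕ} {c d e : ZMod G} (h : d ∈ Reach G c) (h' : e ∈ Reach G d) :
    e ∈ Reach G c := by
  obtain ⟨ls, hls⟩ := h
  obtain ⟨ls', hls'⟩ := h'
  refine ⟨ls ++ ls', ?_⟩
  rw [List.foldl_append, hls, hls']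

theorem reach_inv {G : ℕ} (hG : 0 < G) (h3 : Nat.Coprime G 3) (h7 : Nat.Coprime G 7)
    {c d : ZMod G} (h : d ∈ Reach G c) (l : ℕ) : ∃ e ∈ Reach G c, mv G e l = d := by
  have : NeZero G := ⟨by omega⟩
  let f : Reach G c → Reach G c := fun x => ⟨mv G x.1 l, reach_mv x.2 l⟩
  have hinj : Function.Injective f := by
    intro x y hxy
    apply Subtype.ext
    exact mv_inj h3 h7 l (congrArg Subtype.val hxy)
  have hsurj : Function.Surjective f := Finite.injective_iff_surjective.1 hinj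
  obtain ⟨x, hx⟩ := hsurj ⟨d, h⟩
  exact ⟨x.1, x.2, congrArg Subtype.val hx⟩

theorem reach_sub {G : ℕ} (hG : 0 < G) (h3 : Nat.Coprime G 3) (h7 : Nat.Coprime G 7)
    {c d : ZMod G} (h : d ∈ Reach G c) : d - 4 * (7 : ZMod G)⁻¹ ∈ Reach G c := by
  obtain ⟨e, he, hem⟩ := reach_inv hG h3 h7 (reach_mv h 0) 1
  obtain ⟨g, hg, hgm⟩ := reach_inv hG h3 h7 he 0
  have h1 := (mv_eq_iff h7).1 hem
  have h2 : 3 ^ (0 + 1) * d + 2 = 7 * mv G d 0 := (mv_eq_iff h7).1 rfl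
  have h4 := (mv_eq_iff h7).1 hgm
  have hed : 3 * e = d := by
    apply cancel3 h3
    linear_combination h1 - h2
  have h5 := reach_mv hg 1
  have h6 : mv G g 1 = d - 4 * (7 : ZMod G)⁻¹ := by
    rw [mv_eq_iff h7]
    linear_combination 3 * h4 + 7 * hed + 4 * inv7 h7
  rw [h6] at h5
  exact h5

theorem reach_sub_mul {G : ℕ} (hG : 0 < G) (h3 : Nat.Coprime G 3) (h7 : Nat.Coprime G 7)
    {c d : ZMod G} (h : d ∈ Reach G c) (n : ℕ) :
    d - 4 * (7 : ZMod G)⁻¹ * (n : ZMod G) ∈ Reach G c := by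
  induction n with
  | zero => simpa using h
  | succ n ih =>
    have h1 := reach_sub hG h3 h7 ih
    have h2 : d - 4 * (7 : ZMod G)⁻¹ * ((n + 1 : ℕ) : ZMod G)
        = d - 4 * (7 : ZMod G)⁻¹ * (n : ZMod G) - 4 * (7 : ZMod G)⁻¹ := by
      push_cast
      ring
    rw [h2]
    exact h1

theorem reach_sub_four {G : ℕ} (hG : 0 < G) (h3 : Nat.Coprime G 3) (h7 : Nat.Coprime G 7)
    {c d : ZMod G} (h : d ∈ Reach G c) (j : ℕ) :
    d - 4 * (j : ZMod G) ∈ Reach G c := by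
  have h1 := reach_sub_mul hG h3 h7 h (7 * j)
  have h2 : d - 4 * (7 : ZMod G)⁻¹ * ((7 * j : ℕ) : ZMod G) = d - 4 * (j : ZMod G) := by
    push_cast
    linear_combination (-4 * (j : ZMod G)) * inv7 h7
  rw [h2] at h1
  exact h1

theorem reach_sub_int {G : ℕ} (hG : 0 < G) (h3 : Nat.Coprime G 3) (h7 : Nat.Coprime G 7)
    {c d : ZMod G} (h : d ∈ Reach G c) (t : ℤ) :
    d - 4 * (t : ZMod G) ∈ Reach G c := by
  have : NeZero G := ⟨by omega⟩
  have h1 := reach_sub_four hG h3 h7 h ((t : ZMod G).val)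
  rw [ZMod.natCast_zmod_val] at h1
  exact h1

theorem reach_all {G : ℕ} (hG : 0 < G) (h4 : 4 ∣ G) (h3 : Nat.Coprime G 3)
    (h7 : Nat.Coprime G 7) (c ρ : ℤ) (h : (2 : ℤ) ∣ c - ρ) :
    (ρ : ZMod G) ∈ Reach G (c : ZMod G) := by
  have : NeZero G := ⟨by omega⟩
  by_cases h44 : (4 : ℤ) ∣ c - ρ
  · obtain ⟨t, ht⟩ := h44
    have h1 := reach_sub_int hG h3 h7 (reach_self (c : ZMod G)) t
    have h2 : (c : ZMod G) - 4 * (t : ZMod G) = (ρ : ZMod G) := by
      have h5 : c - 4 * t = ρ := by omega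
      have h6 := congrArg (fun z : ℤ => (z : ZMod G)) h5
      simpa using h6
    rw [h2] at h1
    exact h1
  · have hm := reach_mv (reach_self (c : ZMod G)) 0
    obtain ⟨c', hc'⟩ := ZMod.intCast_surjective (mv G (c : ZMod G) 0)
    have h5 : 3 ^ (0 + 1) * (c : ZMod G) + 2 = 7 * mv G (c : ZMod G) 0 := (mv_eq_iff h7).1 rfl
    rw [← hc'] at h5
    have h6 : ((3 * c + 2 - 7 * c' : ℤ) : ZMod G) = 0 := by
      push_cast
      linear_combination h5
    rw [ZMod.intCast_zmod_eq_zero_iff_dvd] at h6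
    have h8 : (4 : ℤ) ∣ (G : ℤ) := by exact_mod_cast h4
    have h9 : (4 : ℤ) ∣ 3 * c + 2 - 7 * c' := h8.trans h6
    have h10 : (4 : ℤ) ∣ c' - ρ := by omega
    obtain ⟨t, ht⟩ := h10
    rw [← hc'] at hm
    have h1 := reach_sub_int hG h3 h7 hm t
    have h2 : (c' : ZMod G) - 4 * (t : ZMod G) = (ρ : ZMod G) := by
      have h5 : c' - 4 * t = ρ := by omega
      have h6 := congrArg (fun z : ℤ => (z : ZMod G)) h5
      simpa using h6
    rw [h2] at h1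
    exact h1

theorem gTRANS : GTRANS := by
  intro G hG h4 h3 h7
  have : NeZero G := ⟨by omega⟩
  have hex : ∀ p : ZMod G × ZMod G, ∃ ls : List ℕ, p.2 ∈ Reach G p.1 →
      ls.foldl (mv G) p.1 = p.2 := by
    intro p
    by_cases h : p.2 ∈ Reach G p.1
    · obtain ⟨ls, hls⟩ := h
      exact ⟨ls, fun _ => hls⟩
    · exact ⟨[], fun h' => absurd h' h⟩
  choose f hf using hex
  refine ⟨Finset.univ.sup (fun p => ((f p).map (· + 1)).sum), ?_⟩
  intro c ρ h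
  refine ⟨f ((c : ZMod G), (ρ : ZMod G)), ?_, ?_⟩
  · exact Finset.le_sup (f := fun p => ((f p).map (· + 1)).sum) (Finset.mem_univ _)
  · exact hf ((c : ZMod G), (ρ : ZMod G)) (reach_all hG h4 h3 h7 c ρ h)

end Pool.Agent.Helper79.MT
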